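import Pool.Agent.LRG.StmtsC

/-!
# Squad LRG, row CCV (helper39)
-/

set_option autoImplicit false

open Polynomial NumberField

namespace Pool.Agent.LRG.H39

open Pool.Agent.LRG

theorem lagP_eval {n : ℕ} {E : Type} [Field E] {κ : Type} [DecidableEq κ] (w : κ → E)
    (π : Fin n ≃ κ) (j : Fin n) (σ : κ) :
    (lagP (fun j => w (π j)) j).eval (w σ) =
      if σ = π j then lagD (fun j => w (π j)) j else 0 := by
  unfold lagP lagD
  rw [Polynomial.eval_prod]
  split_ifs with h
  · refine Finset.prod_congr rfl fun j₁ _ => ?_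
    rw [eval_sub, eval_X, eval_C, h]
  · apply Finset.prod_eq_zero (i := π.symm σ)
    · rw [Finset.mem_erase]
      refine ⟨fun h1 => h ?_, Finset.mem_univ _⟩
      rw [← h1, Equiv.apply_symm_apply]
    · rw [eval_sub, eval_X, eval_C]
      have h5 : π (π.symm σ) = σ := Equiv.apply_symm_apply π σ
      change w σ - w (π (π.symm σ)) = 0
      rw [h5, sub_self]

theorem lagP_deg {n : ℕ} {E : Type} [Field E] (x : Fin n → E) (j : Fin n) :
    (lagP x j).natDegree < n := by
  unfold lagP
  refine lt_of_le_of_lt (Polynomial.natDegree_prod_le _ _) ?_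
  have h1 : ∀ j' ∈ Finset.univ.erase j, (X - C (x j')).natDegree = 1 := fun j' _ =>
    natDegree_X_sub_C _
  rw [Finset.sum_congr rfl h1, Finset.sum_const, smul_eq_mul, mul_one,
    Finset.card_erase_of_mem (Finset.mem_univ _), Finset.card_univ, Fintype.card_fin]
  have := j.2
  omega

theorem eval_fin {E : Type} [Field E] {n : ℕ} {P : E[X]} (hP : P.natDegree < n) (z : E) :
    ∑ a : Fin n, P.coeff a * z ^ (a : ℕ) = P.eval z := by
  rw [Polynomial.eval_eq_sum_range' hP z, Finset.sum_range]

theorem ccv : CX.CcvStmt := by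
  classical
  intro n r E _ κ _ _ y v π hv hy
  refine ⟨?_, ?_⟩
  · intro i i' j j'
    have hS : (∑ a : Fin n, ∑ b : Fin n, (lagP (fun j => v i (π i j)) j).coeff a *
        (lagP (fun j => v i' (π i' j)) j').coeff b * y (Sum.inr (i, i', a, b))) =
        if π i j = π i' j' then lagD (fun j => v i (π i j)) j *
          lagD (fun j => v i' (π i' j)) j' else 0 := by
      have h1 : (∑ a : Fin n, ∑ b : Fin n, (lagP (fun j => v i (π i j)) j).coeff a *
          (lagP (fun j => v i' (π i' j)) j').coeff b * y (Sum.inr (i, i', a, b))) =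
          ∑ σ : κ, (lagP (fun j => v i (π i j)) j).eval (v i σ) *
            (lagP (fun j => v i' (π i' j)) j').eval (v i' σ) := by
        have h2 : ∀ σ : κ, (lagP (fun j => v i (π i j)) j).eval (v i σ) *
            (lagP (fun j => v i' (π i' j)) j').eval (v i' σ) =
            ∑ a : Fin n, ∑ b : Fin n, (lagP (fun j => v i (π i j)) j).coeff a *
              (lagP (fun j => v i' (π i' j)) j').coeff b * (v i σ ^ (a : ℕ) * v i' σ ^ (b : ℕ)) := by
          intro σ
          rw [← eval_fin (lagP_deg _ _), ← eval_fin (lagP_deg _ _), Finset.sum_mul_sum]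
          refine Finset.sum_congr rfl fun a _ => Finset.sum_congr rfl fun b _ => ?_
          ring
        refine Eq.symm ((Finset.sum_congr rfl fun σ _ => h2 σ).trans ?_)
        refine Finset.sum_comm.trans ?_
        refine Finset.sum_congr rfl fun a _ => ?_
        refine Finset.sum_comm.trans ?_
        refine Finset.sum_congr rfl fun b _ => ?_
        rw [hy, Finset.mul_sum]
      rw [h1]
      have h3 : ∀ σ : κ, (lagP (fun j => v i (π i j)) j).eval (v i σ) *
          (lagP (fun j => v i' (π i' j)) j').eval (v i' σ) =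
          if σ = π i j then (if π i j = π i' j' then lagD (fun j => v i (π i j)) j *
            lagD (fun j => v i' (π i' j)) j' else 0) else 0 := by
        intro σ
        rw [lagP_eval (v i) (π i) j σ, lagP_eval (v i') (π i') j' σ]
        by_cases h4 : σ = π i j
        · rw [if_pos h4, if_pos h4, h4]
          split_ifs
          · rfl
          · rw [mul_zero]
        · rw [if_neg h4, if_neg h4, zero_mul]
      rw [Finset.sum_congr rfl fun σ _ => h3 σ, Finset.sum_ite_eq' Finset.univ (π i j),
        if_pos (Finset.mem_univ _)]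
    unfold cc
    rw [hS]
    split_ifs
    · unfold lagE
      rw [← Finset.mul_prod_erase Finset.univ (fun j₁ => lagD (fun j => v i (π i j)) j₁)
        (Finset.mem_univ j), ← Finset.mul_prod_erase Finset.univ
        (fun j₁ => lagD (fun j => v i' (π i' j)) j₁) (Finset.mem_univ j')]
      ring
    · rw [zero_mul, zero_mul]
  · intro i
    rw [Finset.prod_ne_zero_iff]
    intro j _
    unfold lagD
    rw [Finset.prod_ne_zero_iff]
    intro j' hj'
    rw [Finset.mem_erase] at hj'
    intro h0
    apply hj'.1
    exact ((π i).injective (hv i (sub_eq_zero.mp h0))).symm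

end Pool.Agent.LRG.H39
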