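import Pool.Agent.LRG.StmtsC

/-!
# Squad LRG, row RUN (helper39)
-/

set_option autoImplicit false

open Polynomial NumberField

namespace Pool.Agent.LRG.H39

open Pool.Agent.LRG

theorem map_units {R : Type} [CommRing R] {F : Type} [Field F] {κ : Type} [Fintype κ]
    (φ : R →+* F) (u : κ → Rˣ) (μ : κ → ℤ) :
    φ ((∏ k, u k ^ μ k : Rˣ) : R) = ∏ k, φ (u k : R) ^ μ k := by
  have h1 : φ ((∏ k, u k ^ μ k : Rˣ) : R) =
      ((Units.map (φ : R →* F) (∏ k, u k ^ μ k) : Fˣ) : F) := rfl
  rw [h1, map_prod, Units.coe_prod]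
  refine Finset.prod_congr rfl fun k _ => ?_
  rw [map_zpow, Units.val_zpow_eq_zpow_val]
  rfl

theorem run : CX.RunStmt := by
  intro Ω _ n r R x hx hprod
  have hunit : ∀ i j, IsUnit (⟨x i j, hx i j⟩ : R) := by
    intro i j
    have h1 : IsUnit (∏ j, (⟨x i j, hx i j⟩ : R)) := by
      have h2 : R.subtype (∏ j, (⟨x i j, hx i j⟩ : R)) = ∏ j, x i j := by
        rw [map_prod]; rfl
      rcases hprod i with h3 | h3
      · have h4 : (∏ j, (⟨x i j, hx i j⟩ : R)) = 1 := by
          apply Subtype.ext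
          exact (h2.trans h3).trans rfl
        rw [h4]; exact isUnit_one
      · have h4 : (∏ j, (⟨x i j, hx i j⟩ : R)) = -1 := by
          apply Subtype.ext
          exact (h2.trans h3).trans rfl
        rw [h4]; exact isUnit_one.neg
    exact isUnit_of_dvd_unit (Finset.dvd_prod_of_mem _ (Finset.mem_univ j)) h1
  choose u hu using hunit
  have hval : ∀ i j, R.subtype (u i j : R) = x i j := by
    intro i j
    rw [hu]
    rfl
  have hmem : ∀ μ : Fin r × Fin n → ℤ,
      ((∏ k : Fin r × Fin n, u k.1 k.2 ^ μ k : Rˣ) : R).1 = ∏ k, x k.1 k.2 ^ μ k := by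
    intro μ
    have h1 := map_units R.subtype (fun k : Fin r × Fin n => u k.1 k.2) μ
    calc _ = R.subtype ((∏ k : Fin r × Fin n, u k.1 k.2 ^ μ k : Rˣ) : R) := rfl
      _ = _ := h1
      _ = _ := Finset.prod_congr rfl fun k _ => by rw [hval]
  refine ⟨?_, ?_, ?_⟩
  · intro i j h0
    have h1 := (Units.map (R.subtype : R →* Ω) (u i j)).ne_zero
    apply h1
    calc ((Units.map (R.subtype : R →* Ω) (u i j) : Ωˣ) : Ω) = R.subtype (u i j : R) := rfl
      _ = x i j := hval i j
      _ = 0 := h0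
  · intro μ
    rw [← hmem μ]
    exact Subtype.prop _
  · intro E _ g
    refine ⟨?_, ?_⟩
    · intro i j
      rw [← hu]
      exact (Units.map (g : R →* E) (u i j)).ne_zero
    · intro μ h
      have h1 : (⟨∏ k, x k.1 k.2 ^ μ k, h⟩ : R) =
          ((∏ k : Fin r × Fin n, u k.1 k.2 ^ μ k : Rˣ) : R) := Subtype.ext (hmem μ).symm
      rw [h1, map_units g (fun k : Fin r × Fin n => u k.1 k.2) μ]
      exact Finset.prod_congr rfl fun k _ => by rw [hu]

end Pool.Agent.LRG.H39
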