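import Pool.Agent.LRG.StmtsH

/-!
# Squad LRG, row DTD (helper39)
-/

set_option autoImplicit false

open Polynomial

namespace Pool.Agent.LRG.H39

open Pool.Agent.LRG

/-- all coefficients have degree at most `D` -/
def Bd {m : ℕ} (D : ℕ) (f : (MvPolynomial (Fin m) ℤ)[X]) : Prop :=
  ∀ i, (f.coeff i).totalDegree ≤ D

theorem Bd.neg {m D : ℕ} {f : (MvPolynomial (Fin m) ℤ)[X]} (hf : Bd D f) : Bd D (-f) := by
  intro i
  rw [coeff_neg, MvPolynomial.totalDegree_neg]
  exact hf i

theorem Bd.sum {m D : ℕ} {κ : Type} (s : Finset κ) (f : κ → (MvPolynomial (Fin m) ℤ)[X])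
    (hf : ∀ j ∈ s, Bd D (f j)) : Bd D (∑ j ∈ s, f j) := by
  intro i
  rw [finsetSum_coeff]
  exact MvPolynomial.totalDegree_finsetSum_le fun j hj => hf j hj i

theorem Bd.mul {m D D' : ℕ} {f g : (MvPolynomial (Fin m) ℤ)[X]} (hf : Bd D f) (hg : Bd D' g) :
    Bd (D + D') (f * g) := by
  intro i
  rw [coeff_mul]
  apply MvPolynomial.totalDegree_finsetSum_le
  intro x _
  exact (MvPolynomial.totalDegree_mul _ _).trans (Nat.add_le_add (hf _) (hg _))

theorem Bd.prod {m D : ℕ} {κ : Type} (s : Finset κ) (f : κ → (MvPolynomial (Fin m) ℤ)[X])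
    (hf : ∀ j ∈ s, Bd D (f j)) : Bd (s.card * D) (∏ j ∈ s, f j) := by
  classical
  induction s using Finset.induction_on with
  | empty =>
    intro i
    rw [Finset.prod_empty, coeff_one]
    split_ifs
    · simp
    · simp
  | insert a s ha ih =>
    rw [Finset.prod_insert ha, Finset.card_insert_of_notMem ha, Nat.add_mul, one_mul,
      Nat.add_comm]
    exact (hf a (Finset.mem_insert_self a s)).mul
      (ih fun j hj => hf j (Finset.mem_insert_of_mem hj))

theorem dtd : H.DtdStmt := by
  classical
  intro m D ι _ _ M Λ hΛ hΛD hM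
  have hent : ∀ i j : ι, Bd D ((if i = j then C Λ * X else 0) - C (M i j)) := by
    intro i j k
    rw [coeff_sub]
    refine (MvPolynomial.totalDegree_sub _ _).trans (max_le ?_ ?_)
    · split_ifs
      · rw [coeff_C_mul, coeff_X]
        split_ifs
        · rwa [mul_one]
        · simp
      · simp
    · rw [coeff_C]
      split_ifs
      · exact hM i j
      · simp
  refine ⟨?_, ?_⟩
  · have h1 : (Matrix.of fun i j : ι => (if i = j then C Λ * X else 0) - C (M i j)) =
        (X : (MvPolynomial (Fin m) ℤ)[X]) •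
          ((Λ • (1 : Matrix ι ι (MvPolynomial (Fin m) ℤ))).map C) + (-M).map C := by
      ext i j : 2
      simp only [Matrix.of_apply, Matrix.add_apply, Matrix.smul_apply, Matrix.map_apply,
        Matrix.neg_apply, smul_eq_mul, Matrix.one_apply, map_neg]
      split_ifs
      · rw [mul_one, mul_comm X, sub_eq_add_neg]
      · rw [mul_zero, map_zero, mul_zero, sub_eq_add_neg]
    intro h0
    have h2 := Polynomial.coeff_det_X_add_C_card
      (Λ • (1 : Matrix ι ι (MvPolynomial (Fin m) ℤ))) (-M)
    rw [← h1, h0, coeff_zero, Matrix.det_smul, Matrix.det_one, mul_one] at h2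
    exact pow_ne_zero _ hΛ h2.symm
  · intro k
    have h3 : Bd (Fintype.card ι * D)
        (Matrix.of fun i j : ι => (if i = j then C Λ * X else 0) - C (M i j)).det := by
      rw [Matrix.det_apply]
      apply Bd.sum
      intro σ _
      have h4 : Bd (Fintype.card ι * D) (∏ i : ι,
          (Matrix.of fun i j : ι => (if i = j then C Λ * X else 0) - C (M i j)) (σ i) i) := by
        rw [← Finset.card_univ]
        apply Bd.prod
        intro i _
        exact hent (σ i) i
      rcases Int.units_eq_one_or (Equiv.Perm.sign σ) with h5 | h5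
      · rw [h5, one_smul]; exact h4
      · rw [h5, Units.neg_smul, one_smul]; exact h4.neg
    exact h3 k

end Pool.Agent.LRG.H39
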