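import Pool.Agent.LRG.StmtsZ

/-!
# Squad LRG, row FIB (helper39)
-/

set_option autoImplicit false

open Polynomial NumberField

namespace Pool.Agent.LRG.H39

open Pool.Agent.LRG

theorem gen {K : Type} [Field K] [Algebra ℚ K] (f : K →ₐ[ℚ] ℂ) (θ : K)
    (h : IntermediateField.adjoin ℚ {θ} = ⊤) : IntermediateField.adjoin ℚ {f θ} = f.fieldRange := by
  have h1 := IntermediateField.adjoin_map ℚ {θ} f
  rw [h, ← AlgHom.fieldRange_eq_map, Set.image_singleton] at h1
  exact h1.symm

/-- a generator of the field `K` in `K` generates `K` in `ℂ` -/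
theorem adjoin_coe (K : IntermediateField ℚ ℂ) (inst : Algebra ℚ K) (θ : K)
    (h : @IntermediateField.adjoin ℚ _ K _ inst {θ} = ⊤) :
    IntermediateField.adjoin ℚ {(θ : ℂ)} = K := by
  obtain rfl : inst = K.algebra' := Subsingleton.elim _ _
  have h1 := @gen K _ K.algebra' K.val θ h
  rw [IntermediateField.fieldRange_val] at h1
  exact h1

theorem fib : FibStmt := by
  intro n f
  rcases Set.eq_empty_or_nonempty {K : IntermediateField ℚ ℂ | ∃ _ : NumberField K,
    Module.finrank ℚ K = n ∧ ∃ θ : 𝓞 K, minpoly ℤ θ = f ∧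
      IntermediateField.adjoin ℚ {(θ : K)} = ⊤} with h0 | ⟨K0, hK0⟩
  · rw [h0, Set.encard_empty]
    exact bot_le
  · have hdeg : f.natDegree = n := by
      obtain ⟨_, hn, θ, hθ, hadj⟩ := hK0
      have hint : IsIntegral ℤ (θ : K0) := θ.isIntegral_coe
      have h1 : minpoly ℚ (θ : K0) = (minpoly ℤ (θ : K0)).map (algebraMap ℤ ℚ) :=
        minpoly.isIntegrallyClosed_eq_field_fractions' ℚ hint
      have h2 : minpoly ℤ (θ : K0) = f := by rw [RingOfIntegers.minpoly_coe, hθ]
      have h3 : Module.finrank ℚ (IntermediateField.adjoin ℚ {(θ : K0)}) =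
          (minpoly ℚ (θ : K0)).natDegree :=
        IntermediateField.adjoin.finrank (hint.tower_top)
      rw [hadj, IntermediateField.finrank_top', hn, h1, (minpoly.monic hint).natDegree_map,
        h2] at h3
      exact h3.symm
    have hsub : {K : IntermediateField ℚ ℂ | ∃ _ : NumberField K,
        Module.finrank ℚ K = n ∧ ∃ θ : 𝓞 K, minpoly ℤ θ = f ∧
          IntermediateField.adjoin ℚ {(θ : K)} = ⊤} ⊆
        (fun z : ℂ => IntermediateField.adjoin ℚ {z}) '' (f.rootSet ℂ) := by
      rintro K ⟨_, hn, θ, hθ, hadj⟩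
      have hint : IsIntegral ℤ (θ : K) := θ.isIntegral_coe
      have h2 : minpoly ℤ (θ : K) = f := by rw [RingOfIntegers.minpoly_coe, hθ]
      refine ⟨((θ : K) : ℂ), ?_, adjoin_coe K _ (θ : K) hadj⟩
      rw [Polynomial.mem_rootSet, ← h2]
      refine ⟨(minpoly.monic hint).ne_zero, ?_⟩
      have h3 : aeval (algebraMap K ℂ (θ : K)) (minpoly ℤ (θ : K)) =
          algebraMap K ℂ (aeval (θ : K) (minpoly ℤ (θ : K))) :=
        Polynomial.aeval_algebraMap_apply ℂ (θ : K) (minpoly ℤ (θ : K))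
      rw [minpoly.aeval, map_zero] at h3
      exact h3
    calc _ ≤ ((fun z : ℂ => IntermediateField.adjoin ℚ {z}) '' (f.rootSet ℂ)).encard :=
          Set.encard_le_encard hsub
      _ ≤ (f.rootSet ℂ).encard := Set.encard_image_le _ _
      _ = ((f.rootSet ℂ).ncard : ℕ∞) := (Set.Finite.cast_ncard_eq (f.rootSet_finite ℂ)).symm
      _ ≤ (n : ℕ∞) := by
          rw [← hdeg]
          exact_mod_cast Polynomial.ncard_rootSet_le f ℂ

end Pool.Agent.LRG.H39
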